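import Pool.Agent.H85.KS2.Targets

/-! HB: the counts vanish for large values. -/

set_option autoImplicit false

open Pool.Agent.H98.KS Pool.Agent.H85.KS2

namespace Pool.Agent.H68.KS2

theorem ks2_HB : T_HB := by
  intro N j
  induction j with
  | zero =>
    intro S f B hB n hn
    rw [CN, Finset.card_eq_zero, Finset.filter_eq_empty_iff]
    intro u hu he
    have := hB u hu
    rw [he] at this
    simp only [pow_zero, one_mul] at hn
    omega
  | succ j ih =>
    intro S f B hB n hn
    rw [CN]
    refine Finset.sum_eq_zero fun l _ => ih _ _ (2 * B) ?_ n ?_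
    · intro u hu
      obtain ⟨h1, h2⟩ := Finset.mem_filter.1 hu
      have h3 := hB _ h1
      have h4 := hB _ h2
      have h5 := abs_sub (f (u + l)) (f u)
      omega
    · calc 2 ^ j * (2 * B) = 2 ^ (j + 1) * B := by ring
        _ < |n| := hn

end Pool.Agent.H68.KS2
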