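import Pool.Agent.H85.KS2.Targets
import Pool.Agent.H35.KS.MID

/-! MID2: all scales up to `N^M` (adaptation of `ks_MID` by helper35). -/

set_option autoImplicit false

open scoped BigOperators

namespace Pool.Agent.H68.KS2

open Pool.Agent.H98.KS Pool.Agent.H85.KS2 Pool.Agent.H35.KS

theorem ks2_MID2 (hRA : T_RA) (hRT : T_RT) (hNUM : T_NUM) (hRB2 : T_RB2) : T_MID2 := by
  classical
  intro k d M hk hd hM c0 hc0
  have hkd := (hNUM k d hk hd).1
  obtain ⟨η, hη0, hη1, hB'⟩ := hRB2 k d M hk hd hM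
  obtain ⟨C3, hC3, hB⟩ := hB' c0 hc0
  obtain ⟨C1, C, hC1, hC, hA⟩ := hRA k d hk hkd c0 hc0
  refine ⟨2 * 5 ^ d * C1 ^ d + 2 * C + (2 * M / η + 1) * C3, by positivity, ?_⟩
  intro N F X hN hX
  have hN' : 0 < N := by linarith
  set J : Finset ℕ := (Finset.range (Nat.log 2 ⌊N ^ M⌋₊ + 1)).filter
    (fun j => (2 : ℝ) ^ j ≤ N ^ M) with hJ
  set Xj : ℕ → Finset (Fin d → ℤ) := fun j => X.filter (fun x => Rich k N c0 F (2 ^ j) x)
    with hXj
  have hXr : ∀ j, ∀ x ∈ Xj j, Sparse N 1 F x ∧ Rich k N c0 F (2 ^ j) x := by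
    intro j x hx
    have := Finset.mem_filter.1 hx
    exact ⟨(hX x this.1).1, this.2⟩
  have hNM : 1 ≤ N ^ M := one_le_pow₀ hN
  have hfl : 1 ≤ ⌊N ^ M⌋₊ := Nat.le_floor (by exact_mod_cast hNM)
  have hsum : (X.card : ℝ) ≤ ∑ j ∈ J, ((Xj j).card : ℝ) := by
    have h1 : X ⊆ J.biUnion Xj := by
      intro x hx
      obtain ⟨-, j, hj1, hj2⟩ := hX x hx
      refine Finset.mem_biUnion.2 ⟨j, ?_, Finset.mem_filter.2 ⟨hx, hj2⟩⟩
      refine Finset.mem_filter.2 ⟨?_, hj1⟩
      rw [Finset.mem_range]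
      refine Nat.lt_succ_of_le (Nat.le_log_of_pow_le (by norm_num) ?_)
      exact Nat.le_floor (by exact_mod_cast hj1)
    have h2 := (Finset.card_le_card h1).trans Finset.card_biUnion_le
    exact_mod_cast h2
  have hJm : ∀ j ∈ J, (2 : ℝ) ^ j ≤ N ^ M := fun j hj => (Finset.mem_filter.1 hj).2
  have hT : ∀ j, ((Xj j).card : ℝ) ≤ 5 ^ d * ((2 : ℝ) ^ j) ^ d * F.card := by
    intro j
    have h := hRT k d (2 ^ j) N c0 F (Xj j) hk Nat.one_le_two_pow hc0 hN'
      (fun x hx => (hXr j x hx).2)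
    rw [mul_pow] at h
    exact_mod_cast h
  have hF0 : (0 : ℝ) ≤ F.card := Nat.cast_nonneg _
  have hNd : 1 ≤ N ^ d := one_le_pow₀ hN
  set E : ℝ := N ^ (1 + 1 / (2 * (k : ℝ))) with hE
  have hE0 : 0 < E := Real.rpow_pos_of_pos hN' _
  set J1 := J.filter (fun j => (2 : ℝ) ^ j ≤ C1 * N) with hJ1
  set J2 := J.filter (fun j => C1 * N < (2 : ℝ) ^ j ∧ (2 : ℝ) ^ j ≤ E) with hJ2
  set J3 := J.filter (fun j => E < (2 : ℝ) ^ j) with hJ3
  have hsplit : ∑ j ∈ J, ((Xj j).card : ℝ) ≤ ∑ j ∈ J1, ((Xj j).card : ℝ)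
      + ∑ j ∈ J2, ((Xj j).card : ℝ) + ∑ j ∈ J3, ((Xj j).card : ℝ) := by
    have h1 : J ⊆ (J1 ∪ J2) ∪ J3 := by
      intro j hj
      simp only [hJ1, hJ2, hJ3, Finset.mem_union, Finset.mem_filter]
      rcases le_or_gt ((2 : ℝ) ^ j) (C1 * N) with h | h
      · exact Or.inl (Or.inl ⟨hj, h⟩)
      · rcases le_or_gt ((2 : ℝ) ^ j) E with h' | h'
        · exact Or.inl (Or.inr ⟨hj, h, h'⟩)
        · exact Or.inr ⟨hj, h'⟩
    have hu : ∀ A B : Finset ℕ, ∑ j ∈ A ∪ B, ((Xj j).card : ℝ)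
        ≤ ∑ j ∈ A, ((Xj j).card : ℝ) + ∑ j ∈ B, ((Xj j).card : ℝ) := by
      intro A B
      rw [← Finset.sum_union_inter]
      have : 0 ≤ ∑ j ∈ A ∩ B, ((Xj j).card : ℝ) :=
        Finset.sum_nonneg fun _ _ => Nat.cast_nonneg _
      linarith
    have h2 := Finset.sum_le_sum_of_subset_of_nonneg (f := fun j => ((Xj j).card : ℝ)) h1
      (fun _ _ _ => Nat.cast_nonneg _)
    have h3 := hu (J1 ∪ J2) J3
    have h4 := hu J1 J2
    linarith
  have b1 : ∑ j ∈ J1, ((Xj j).card : ℝ) ≤ 2 * 5 ^ d * C1 ^ d * N ^ d * F.card := by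
    calc ∑ j ∈ J1, ((Xj j).card : ℝ) ≤ ∑ j ∈ J1, 5 ^ d * ((2 : ℝ) ^ j) ^ d * F.card :=
          Finset.sum_le_sum fun j _ => hT j
      _ = 5 ^ d * (∑ j ∈ J1, ((2 : ℝ) ^ j) ^ d) * F.card := by
          rw [Finset.mul_sum, Finset.sum_mul]
      _ ≤ 5 ^ d * (2 * (C1 * N) ^ d) * F.card := by
          have h2 : ∑ j ∈ J1, ((2 : ℝ) ^ j) ^ d ≤ 2 * (C1 * N) ^ d :=
            geo d (by omega) _ (by positivity) J1 fun j hj => (Finset.mem_filter.1 hj).2
          gcongr
      _ = _ := by rw [mul_pow]; ring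
  have b2 : ∑ j ∈ J2, ((Xj j).card : ℝ) ≤ 2 * C * N ^ d * F.card := by
    calc ∑ j ∈ J2, ((Xj j).card : ℝ)
        ≤ ∑ j ∈ J2, C * N ^ d * (((2 : ℝ) ^ j) ^ (2 * k - 1) / N ^ (2 * k)) * F.card := by
          refine Finset.sum_le_sum fun j hj => ?_
          have hj' := (Finset.mem_filter.1 hj).2
          have h := hA N (2 ^ j) F (Xj j) hN (by exact_mod_cast hj'.1.le)
            (fun x hx => hXr j x hx)
          exact_mod_cast h
      _ = C * N ^ d * ((∑ j ∈ J2, ((2 : ℝ) ^ j) ^ (2 * k - 1)) / N ^ (2 * k)) * F.card := by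
          rw [Finset.sum_div, Finset.mul_sum, Finset.sum_mul]
      _ ≤ C * N ^ d * ((2 * E ^ (2 * k - 1)) / N ^ (2 * k)) * F.card := by
          have h2 : ∑ j ∈ J2, ((2 : ℝ) ^ j) ^ (2 * k - 1) ≤ 2 * E ^ (2 * k - 1) :=
            geo _ (by omega) _ hE0.le J2 fun j hj => (Finset.mem_filter.1 hj).2.2
          gcongr
      _ ≤ C * N ^ d * 2 * F.card := by
          have h3 : (2 * E ^ (2 * k - 1)) / N ^ (2 * k) ≤ 2 := by
            rw [div_le_iff₀ (by positivity)]
            have h4 : E ^ (2 * k - 1) ≤ N ^ (2 * k) := by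
              rw [hE, ← Real.rpow_natCast, ← Real.rpow_mul hN'.le, ← Real.rpow_natCast]
              refine Real.rpow_le_rpow_of_exponent_le hN ?_
              have h5 : ((2 * k - 1 : ℕ) : ℝ) = 2 * (k : ℝ) - 1 := by
                rw [Nat.cast_sub (by omega)]
                push_cast
                ring
              rw [h5]
              push_cast
              have hk0 : (0 : ℝ) < k := by positivity
              have h6 : (1 + 1 / (2 * (k : ℝ))) * (2 * (k : ℝ) - 1)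
                  = 2 * (k : ℝ) - 1 / (2 * (k : ℝ)) := by
                field_simp
                ring
              rw [h6]
              have h7 : 0 ≤ 1 / (2 * (k : ℝ)) := by positivity
              linarith
            linarith
          gcongr
      _ = _ := by ring
  have hcardJ : (J.card : ℝ) ≤ (2 * M / η + 1) * N ^ η := by
    have h1 : J.card ≤ Nat.log 2 ⌊N ^ M⌋₊ + 1 :=
      (Finset.card_filter_le _ _).trans (by rw [Finset.card_range])
    have h2 : (Nat.log 2 ⌊N ^ M⌋₊ : ℝ) ≤ M * Real.logb 2 N := by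
      have h3 := Real.natLog_le_logb ⌊N ^ M⌋₊ 2
      refine h3.trans ?_
      rw [← Real.logb_pow]
      refine Real.logb_le_logb_of_le (by norm_num) (by exact_mod_cast hfl) ?_
      exact Nat.floor_le (by positivity)
    have h4 : Real.logb 2 N ≤ 2 / η * N ^ η := by
      have h5 : Real.log N ≤ N ^ η / η :=
        Real.log_le_rpow_div hN'.le hη0
      have h6 : (0.69 : ℝ) < Real.log 2 := by
        have := Real.log_two_gt_d9
        linarith
      unfold Real.logb
      rw [div_le_iff₀ (by linarith)]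
      have h7 : 0 ≤ N ^ η / η := by positivity
      have h8 : 2 / η * N ^ η * Real.log 2 = 2 * Real.log 2 * (N ^ η / η) := by
        field_simp
      rw [h8]
      nlinarith
    have h8 : 1 ≤ N ^ η := Real.one_le_rpow hN hη0.le
    have h9 : (J.card : ℝ) ≤ (Nat.log 2 ⌊N ^ M⌋₊ : ℝ) + 1 := by exact_mod_cast h1
    have h10 : (M : ℝ) * Real.logb 2 N ≤ M * (2 / η * N ^ η) := by gcongr
    have h11 : (2 * M / η + 1) * N ^ η = M * (2 / η * N ^ η) + N ^ η := by ring
    rw [h11]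
    linarith
  have b3 : ∑ j ∈ J3, ((Xj j).card : ℝ) ≤ (2 * M / η + 1) * C3 * N ^ d * F.card := by
    calc ∑ j ∈ J3, ((Xj j).card : ℝ)
        ≤ ∑ _j ∈ J3, C3 * N ^ ((d : ℝ) - η) * F.card := by
          refine Finset.sum_le_sum fun j hj => ?_
          have hj' := Finset.mem_filter.1 hj
          have e1 : E ≤ ((2 ^ j : ℕ) : ℝ) := by
            have := hj'.2.le
            exact_mod_cast this
          have h := hB N (2 ^ j) F (Xj j) hN e1
            (by exact_mod_cast hJm j hj'.1) (fun x hx => hXr j x hx)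
          exact h
      _ = (J3.card : ℝ) * (C3 * N ^ ((d : ℝ) - η) * F.card) := by
          rw [Finset.sum_const, nsmul_eq_mul]
      _ ≤ ((2 * M / η + 1) * N ^ η) * (C3 * N ^ ((d : ℝ) - η) * F.card) := by
          have h1 : (J3.card : ℝ) ≤ J.card := by
            exact_mod_cast Finset.card_filter_le _ _
          have h2 : 0 ≤ C3 * N ^ ((d : ℝ) - η) * (F.card : ℝ) := by positivity
          exact mul_le_mul_of_nonneg_right (h1.trans hcardJ) h2
      _ = (2 * M / η + 1) * C3 * (N ^ η * N ^ ((d : ℝ) - η)) * F.card := by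
          ring
      _ = _ := by
          rw [← Real.rpow_add hN']
          have : η + ((d : ℝ) - η) = (d : ℝ) := by ring
          rw [this, Real.rpow_natCast]
  have h6 : (2 * 5 ^ d * C1 ^ d + 2 * C + (2 * M / η + 1) * C3)
      * N ^ d * F.card = 2 * 5 ^ d * C1 ^ d * N ^ d * F.card + 2 * C * N ^ d * F.card
      + (2 * M / η + 1) * C3 * N ^ d * F.card := by ring
  rw [h6]
  linarith

end Pool.Agent.H68.KS2
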